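import Pool.Agent.P8H47.FP.Stm3

/-! Package LTWO of project FP: simultaneous approximation of solutions of `X + Y = 1`. -/

set_option autoImplicit false

namespace Pool.Agent.P8H53.FP

open Pool.Agent.Y920.EP (pwG)
open Pool.Agent.P8H47.EC (PI)
open Pool.Agent.P8H47.EC2

variable {F : Type} [Field F] {p : ℕ}

theorem max_mul {O : ValuationSubring F} {k u : Fˣ} (hk : (k : F) ∈ O) (hk' : (k : F)⁻¹ ∉ O)
    (hu : (u : F) ∈ O) : ((k * u : Fˣ) : F) ∈ O ∧ ((k * u : Fˣ) : F)⁻¹ ∉ O := by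
  rw [Units.val_mul]
  refine ⟨O.mul_mem _ _ hk hu, fun h => hk' ?_⟩
  have h1 : (k : F)⁻¹ = u * ((k : F) * u)⁻¹ := by
    have := k.ne_zero
    have := u.ne_zero
    field_simp
  rw [h1]
  exact O.mul_mem _ _ hu h

theorem not_J {O : ValuationSubring F} {J : Set F} (hJ : PI O J) {u : Fˣ}
    (h' : ((u⁻¹ : Fˣ) : F) ∈ O) : (u : F) ∉ J := by
  intro h
  apply hJ.one
  have := hJ.mul _ h _ h'
  rwa [← Units.val_mul, mul_inv_cancel, Units.val_one] at this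

/-- units of the localization at `J` -/
def Jf (J : Set F) (u : Fˣ) : Prop := (u : F) ∉ J ∧ ((u⁻¹ : Fˣ) : F) ∉ J

/-- solutions which are units of the localization -/
def Sol (T : Subgroup Fˣ) (J : Set F) (x y : Fˣ) : Prop :=
  ∃ X Y : Fˣ, (X : F) + Y = 1 ∧ x⁻¹ * X ∈ T ∧ y⁻¹ * Y ∈ T ∧ Jf J X ∧ Jf J Y

theorem Sol.symm {T : Subgroup Fˣ} {J : Set F} {x y : Fˣ} (h : Sol T J x y) : Sol T J y x := by
  obtain ⟨X, Y, e, h1, h2, h3, h4⟩ := h
  exact ⟨Y, X, by rw [add_comm]; exact e, h2, h1, h4, h3⟩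

theorem jf_unit {O : ValuationSubring F} {J : Set F} (hJ : PI O J) {u : Fˣ} (h : (u : F) ∈ O)
    (h' : ((u⁻¹ : Fˣ) : F) ∈ O) : Jf J u :=
  ⟨not_J hJ h', not_J hJ (by rw [inv_inv]; exact h)⟩

theorem caseA {T : Subgroup Fˣ} {O : ValuationSubring F} {J : Set F} (h : Dat p T O J)
    {x y X Y : Fˣ} (e : (X : F) + Y = 1) (hy : y⁻¹ * Y ∈ T) (hX : (X : F) ∈ J) :
    Sol T J x y := by
  have hO : (X : F) ∈ O := h.pi.sub _ hX
  have hO' : (X : F)⁻¹ ∉ O := fun h' => not_J h.pi (by rw [Units.val_inv_eq_inv_val]; exact h') hX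
  have hm1 : (-1 : F) ∈ O := O.neg_mem _ O.one_mem
  obtain ⟨u, hu, -, -, huT⟩ := one_add_mem h.one_add hO hO' hm1
  have hYu : Y = u := Units.ext (by rw [hu]; linear_combination e)
  have hyT : y⁻¹ ∈ T := by
    have := mul_mem hy (inv_mem huT)
    rwa [hYu, mul_inv_cancel_right] at this
  obtain ⟨z, hz1, hz2, hz3, hz4⟩ := h.cls x
  obtain ⟨w, hw, hw1, hw2, hwT⟩ := one_add_mem h.one_add hz2 hz3 hm1
  refine ⟨z, w, by rw [hw]; ring, hz1, mul_mem hyT hwT, ⟨hz4, fun h' => hz3 ?_⟩,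
    jf_unit h.pi hw1 hw2⟩
  rw [← Units.val_inv_eq_inv_val]
  exact h.pi.sub _ h'

theorem caseC {T : Subgroup Fˣ} {O : ValuationSubring F} {J : Set F} (h : Dat p T O J)
    {x y X Y : Fˣ} (e : (X : F) + Y = 1) (hx : x⁻¹ * X ∈ T) (hy : y⁻¹ * Y ∈ T)
    (hX : ((X⁻¹ : Fˣ) : F) ∈ J) : Sol T J x y := by
  have hO : ((X⁻¹ : Fˣ) : F) ∈ O := h.pi.sub _ hX
  have hO' : ((X⁻¹ : Fˣ) : F)⁻¹ ∉ O := fun h' => by
    refine not_J h.pi (u := X⁻¹) ?_ hX
    rw [inv_inv]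
    rwa [Units.val_inv_eq_inv_val, inv_inv] at h'
  have hm1 : (-1 : F) ∈ O := O.neg_mem _ O.one_mem
  obtain ⟨u, hu, -, -, huT⟩ := one_add_mem h.one_add hO hO' hm1
  have hYu : Y = -1 * X * u := by
    apply Units.ext
    rw [Units.val_mul, Units.val_mul, Units.val_neg, Units.val_one, hu, Units.val_inv_eq_inv_val]
    have := X.ne_zero
    field_simp
    linear_combination e
  obtain ⟨z, hz1, hz2, hz3, hz4⟩ := h.cls x⁻¹
  rw [inv_inv] at hz1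
  obtain ⟨w, hw, hw1, hw2, hwT⟩ := one_add_mem h.one_add hz2 hz3 hm1
  have hzO : ((z⁻¹ : Fˣ) : F) ∉ O := by rw [Units.val_inv_eq_inv_val]; exact hz3
  refine ⟨z⁻¹, -1 * z⁻¹ * w, ?_, ?_, ?_, ⟨fun h' => hzO (h.pi.sub _ h'), ?_⟩, ?_, ?_⟩
  · rw [Units.val_mul, Units.val_mul, Units.val_neg, Units.val_one, hw, Units.val_inv_eq_inv_val]
    have := z.ne_zero
    field_simp
    ring
  · have := inv_mem hz1
    rwa [mul_inv] at this
  · have h1 : y⁻¹ * (-1 * z⁻¹ * w) = (y⁻¹ * Y) * ((x⁻¹ * X)⁻¹ * (x * z)⁻¹ * (u⁻¹ * w)) := by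
      rw [hYu]
      simp only [mul_inv, inv_inv]
      have h2 : y⁻¹ * (-1 * X * u) * (x * X⁻¹ * (x⁻¹ * z⁻¹) * (u⁻¹ * w)) =
          y⁻¹ * (-1 * z⁻¹ * w) * ((X * X⁻¹) * (u * u⁻¹) * (x * x⁻¹)) := by
        simp only [mul_comm, mul_left_comm, mul_assoc]
      rw [h2]
      simp
    rw [h1]
    exact mul_mem hy (mul_mem (mul_mem (inv_mem hx) (inv_mem hz1)) (mul_mem (inv_mem huT) hwT))
  · rw [inv_inv]
    exact hz4
  · intro h'
    apply hzO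
    have h1 := O.mul_mem _ _ (h.pi.sub _ h') (O.neg_mem _ hw2)
    have h2 : ((-1 * z⁻¹ * w : Fˣ) : F) * -((w⁻¹ : Fˣ) : F) = ((z⁻¹ : Fˣ) : F) := by
      simp only [Units.val_mul, Units.val_neg, Units.val_one, Units.val_inv_eq_inv_val]
      have := w.ne_zero
      field_simp
    rwa [h2] at h1
  · intro h'
    apply hz4
    have h1 := h.pi.mul _ h' _ (O.neg_mem _ hw1)
    have h2 : (((-1 * z⁻¹ * w)⁻¹ : Fˣ) : F) * -(w : F) = (z : F) := by
      simp only [Units.val_mul, Units.val_neg, Units.val_one, Units.val_inv_eq_inv_val]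
      have := w.ne_zero
      have := z.ne_zero
      field_simp
    rwa [h2] at h1

theorem sol {T : Subgroup Fˣ} {O : ValuationSubring F} {J : Set F} (h : Dat p T O J)
    {x y X Y : Fˣ} (e : (X : F) + Y = 1) (hx : x⁻¹ * X ∈ T) (hy : y⁻¹ * Y ∈ T) :
    Sol T J x y := by
  have e' : (Y : F) + X = 1 := by rw [add_comm]; exact e
  by_cases h1 : (X : F) ∈ J
  · exact caseA h e hy h1
  by_cases h2 : (Y : F) ∈ J
  · exact (caseA h e' hx h2).symm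
  by_cases h3 : ((X⁻¹ : Fˣ) : F) ∈ J
  · exact caseC h e hx hy h3
  by_cases h4 : ((Y⁻¹ : Fˣ) : F) ∈ J
  · exact (caseC h e' hy hx h4).symm
  exact ⟨X, Y, e, hx, hy, ⟨h1, h3⟩, ⟨h2, h4⟩⟩

theorem jf_UU {T T' : Subgroup Fˣ} {O O' : ValuationSubring F} {J J' : Set F} (h : Dat p T O J)
    (h' : Dat p T' O' J') (hne : ¬ T ≤ T') {u : Fˣ} (hu : Jf J u) : u ∈ UU O O' := by
  by_cases h1 : (u : F) ∈ O
  · by_cases h2 : ((u⁻¹ : Fˣ) : F) ∈ O
    · exact UU_left h1 h2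
    · rw [Units.val_inv_eq_inv_val] at h2
      exact sep h h'.pw h'.one_add hne h1 h2 hu.1
  · have h2 : ((u⁻¹ : Fˣ) : F) ∈ O := by
      rw [Units.val_inv_eq_inv_val]
      exact (O.mem_or_inv_mem _).resolve_left h1
    have h3 : ((u⁻¹ : Fˣ) : F)⁻¹ ∉ O := by
      rw [Units.val_inv_eq_inv_val, inv_inv]
      exact h1
    have := sep h h'.pw h'.one_add hne h2 h3 hu.2
    rw [← inv_inv u]
    exact inv_mem this

theorem ltwo : Pool.Agent.P8H47.FP.S_LTWO := by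
  intro ap F _ p hp h2 ι _ T O J h hne x y hloc
  classical
  rcases isEmpty_or_nonempty ι with hι | hι
  · refine ⟨Units.mk0 (2 : F)⁻¹ (inv_ne_zero h2), Units.mk0 (2 : F)⁻¹ (inv_ne_zero h2), ?_,
      fun i => (hι.false i).elim⟩
    rw [Units.val_mk0]
    field_simp
    norm_num
  have hs : ∀ i, Sol (T i) (J i) x y := fun i => by
    obtain ⟨X, Y, e, hx, hy⟩ := hloc i
    exact sol (h i) e hx hy
  choose X Y e hx hy hX hY using hs
  -- small elements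
  have hkn : ∀ i, ∃ k n : Fˣ, n = k * (Y i * (X i)⁻¹) ∧ ((k : F) ∈ O i ∧ (k : F)⁻¹ ∉ O i) ∧
      ((n : F) ∈ O i ∧ (n : F)⁻¹ ∉ O i) ∧ ∀ j, i ≠ j → n ∈ UU (O i) (O j) := by
    intro i
    obtain ⟨c, -, hc2, hc3, hc4⟩ := (h i).cls 1
    have hcU : ∀ j, i ≠ j → c ∈ UU (O i) (O j) := fun j hij =>
      sep (h i) (h j).pw (h j).one_add (hne i j hij) hc2 hc3 hc4
    have hrU : ∀ j, i ≠ j → Y i * (X i)⁻¹ ∈ UU (O i) (O j) := fun j hij =>
      mul_mem (jf_UU (h i) (h j) (hne i j hij) (hY i))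
        (inv_mem (jf_UU (h i) (h j) (hne i j hij) (hX i)))
    by_cases hr : (((Y i * (X i)⁻¹)⁻¹ : Fˣ) : F) ∈ O i
    · exact ⟨c * (Y i * (X i)⁻¹)⁻¹, c, by rw [inv_mul_cancel_right],
        max_mul hc2 hc3 hr, ⟨hc2, hc3⟩, hcU⟩
    · have hr' : ((Y i * (X i)⁻¹ : Fˣ) : F) ∈ O i := by
        rw [Units.val_inv_eq_inv_val] at hr
        exact ((O i).mem_or_inv_mem _).resolve_right hr
      exact ⟨c, c * (Y i * (X i)⁻¹), rfl, ⟨hc2, hc3⟩, max_mul hc2 hc3 hr',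
        fun j hij => mul_mem (hcU j hij) (hrU j hij)⟩
  choose k n hnk hk hn hnU using hkn
  obtain ⟨z, hz⟩ := ap F ι O Finset.univ n X (fun i _ => hn i) (fun i _ j _ hij =>
    ⟨hnU i j hij, jf_UU (h i) (h j) (hne i j hij) (hX i)⟩)
  have key : ∀ i, ∃ v : Fˣ, (z : F) + v = 1 ∧ x⁻¹ * z ∈ T i ∧ y⁻¹ * v ∈ T i := by
    intro i
    obtain ⟨b, hb, ez⟩ := hz i (Finset.mem_univ i)
    obtain ⟨u, hu, -, -, huT⟩ := one_add_mem (h i).one_add (hn i).1 (hn i).2 hb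
    obtain ⟨w, hw, -, -, hwT⟩ := one_add_mem (h i).one_add (hk i).1 (hk i).2 ((O i).neg_mem _ hb)
    refine ⟨Y i * w, ?_, ?_, ?_⟩
    · rw [Units.val_mul, hw, ez, hnk i]
      simp only [Units.val_mul, Units.val_inv_eq_inv_val]
      have := (X i).ne_zero
      field_simp
      linear_combination e i
    · have h1 : z = X i * u := Units.ext (by rw [ez, Units.val_mul, hu])
      rw [h1, ← mul_assoc]
      exact mul_mem (hx i) huT
    · rw [← mul_assoc]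
      exact mul_mem (hy i) hwT
  obtain ⟨i₀⟩ := hι
  obtain ⟨v, hv, -⟩ := key i₀
  refine ⟨z, v, hv, fun i => ?_⟩
  obtain ⟨v', hv', h3, h4⟩ := key i
  have h5 : v = v' := Units.ext (add_left_cancel (hv.trans hv'.symm))
  rw [h5]
  exact ⟨h3, h4⟩

end Pool.Agent.P8H53.FP
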